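import Pool.Agent.TH683.WPD.Law

/-!
# The W-hierarchy relative to random oracles of arbitrary density

The strings `x` are put into the oracle `A` independently, with a probability `q |x|` that depends on
the length only, where `q` is an arbitrary function (`rand q` is the distribution of `A`). Let
`rare q n = 2 ^ n * min (q n) (1 - q n)`, the expected number of the strings of length `n` for which
`A` has the less probable value. Let `Q` be any further oracle; the classes are relative to
`join Q A`, the disjoint union.

(1) If the series `∑ rare q n` diverges then, for every `Q` and almost all `A`, the second level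
`W[2]` (and `W[P]`) contains a problem whose complement is not in nondeterministic polynomial time
after any precomputation on the parameter; so `W[2] ⊄ FPT`, and `W[2]` is not closed under
complement.

(2) If it converges then `W[P] = FPT` relative to `join Q A` for some `Q` and almost all `A`.

So if `C` is a relativized class between `FPT` and `para-coNP`, and `D` is one between `W[2]` and
`W[P]` (such as `W[t]`, `t ≥ 2`, or `W[SAT]`), then, for some `Q`, almost surely `D ⊆ C`, iff the
series converges; otherwise `D ⊄ C` almost surely, for all `Q`.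

(3) For every `Q`, almost surely `W[P] = FPT` if the series converges and `W[P] = FPT` relative to
`join Q (common q)`, where `common q` is the set of the strings with probability above `1 / 2`;
otherwise, almost surely `W[P] ≠ FPT`.
-/

set_option autoImplicit false

namespace Pool.Agent.Results.MP_5f6b2a_lc.DensityThreshold

open MeasureTheory Pool.Agent.NPC Pool.Agent.H620R2.Gauge
open Pool.Agent.W900.IE (indep)
open Pool.Agent.TH678.WP (InFPT InWP ParaAny)
open Pool.Agent.TH678.HW (InW2)

/-- The distribution of the random oracle: the strings `x` are in the oracle with probability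
`q |x|`, independently. -/
noncomputable def rand (q : ℕ → unitInterval) : Measure Oracle := indep (fun x => q x.length)

/-- The expected number of the strings of length `n` for which the random oracle has the less
probable value. -/
noncomputable def rare (q : ℕ → unitInterval) (n : ℕ) : ℝ := 2 ^ n * min (q n : ℝ) (1 - q n)

/-- The disjoint union of the oracles `Q` and `A`. -/
def join (Q A : Oracle) : Oracle
  | [] => false
  | false :: z => Q z
  | true :: z => A z

/-- The oracle of the more probable values. -/
noncomputable def common (q : ℕ → unitInterval) : Oracle :=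
  fun x => decide ((1 / 2 : ℝ) < q x.length)

theorem join_eq : TH680.OD.join = join := by
  funext Q A x
  rcases x with _ | ⟨b, z⟩
  · rfl
  · cases b <;> rfl

/-- **The W-hierarchy relative to random oracles: the density threshold.** -/
theorem result (q : ℕ → unitInterval) (C D : Oracle → Set (List Bool × ℕ) → Prop)
    (hC₁ : ∀ O P, InFPT O P → C O P) (hC₂ : ∀ O P, C O P → ParaAny (IsNP O) Pᶜ)
    (hD₁ : ∀ O P, InW2 O P → InWP O P → D O P) (hD₂ : ∀ O P, D O P → InWP O P) :
    (¬ Summable (rare q) → ∀ Q : Oracle, ∀ᵐ A ∂(rand q), ∃ P, D (join Q A) P ∧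
      ¬ C (join Q A) P) ∧
    (Summable (rare q) → ∃ Q : Oracle, ∀ᵐ A ∂(rand q), ∀ P, D (join Q A) P → C (join Q A) P) ∧
    ∀ Q : Oracle,
      (Summable (rare q) ∧ (∀ P, InWP (join Q (common q)) P → InFPT (join Q (common q)) P) →
        ∀ᵐ A ∂(rand q), ∀ P, InWP (join Q A) P → InFPT (join Q A) P) ∧
      (¬ (Summable (rare q) ∧
          ∀ P, InWP (join Q (common q)) P → InFPT (join Q (common q)) P) →
        ∀ᵐ A ∂(rand q), ∃ P, InWP (join Q A) P ∧ ¬ InFPT (join Q A) P) := by
  rw [← join_eq]
  obtain ⟨h1, h2⟩ := TH683.WPD.main q
  have hn : ∀ {O P}, ¬ ParaAny (IsNP O) Pᶜ → ¬ InFPT O P := fun h h' =>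
    h (hC₂ _ _ (hC₁ _ _ h'))
  refine ⟨fun h Q => ?_, fun h => ?_, fun Q => ⟨fun h => ?_, fun h => ?_⟩⟩
  · filter_upwards [h1 h Q] with A hA
    obtain ⟨P, h3, h4, h5⟩ := hA
    exact ⟨P, hD₁ _ _ h3 h4, fun h6 => h5 (hC₂ _ _ h6)⟩
  · obtain ⟨Q, hQ⟩ := (h2 h).1
    refine ⟨Q, ?_⟩
    filter_upwards [hQ] with A hA P hP
    exact hC₁ _ _ (hA P (hD₂ _ _ hP))
  · filter_upwards [(h2 h.1).2 Q] with A hA P hP
    exact (hA P).2.2 (h.2 P ((hA P).1.1 hP))
  · by_cases hs : Summable (rare q)
    · have h3 : ¬ ∀ P, InWP (TH680.OD.join Q (common q)) P →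
          InFPT (TH680.OD.join Q (common q)) P := fun h4 => h ⟨hs, h4⟩
      push Not at h3
      obtain ⟨P, h4, h5⟩ := h3
      filter_upwards [(h2 hs).2 Q] with A hA
      exact ⟨P, (hA P).1.2 h4, fun h6 => h5 ((hA P).2.1 h6)⟩
    · filter_upwards [h1 hs Q] with A hA
      obtain ⟨P, _, h4, h5⟩ := hA
      exact ⟨P, h4, hn h5⟩

end Pool.Agent.Results.MP_5f6b2a_lc.DensityThreshold
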