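import Pool.Agent.TH683.W1D.Step

/-!
# The first step of the W-hierarchy relative to random oracles

The strings `x` are put into the oracle `A` independently, with a probability `q |x|` that depends on
the length only (`rand q` is the distribution of `A`). Let `minor q n = min (q n) (1 - q n)` be the
probability of the less probable value for the strings of length `n`, and
`rare q n = 2 ^ n * minor q n` the expected number of the strings with this value. The condition on
`q` is that the less probable values are not too rare: for every `δ > 0`, the sum of `rare q n` over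
the lengths with `minor q n ≤ 2 ^ (-δ n)` converges, and the sum over all lengths diverges. So, for
instance, `q` may be any constant in the open interval `(0, 1)`, such as `1 / 2`.

Let `Q` be any further oracle, and let the classes be relative to `join Q A`, the disjoint union.
Then, almost surely, `W[1]` is strictly contained in `W[2]`: there is a problem in `W[2]` which is
not even in the nonuniform version of `W[1]`. Nor is its complement in nondeterministic polynomial
time after any precomputation on the parameter.

(For some `Q`, almost surely, `W[1]` is contained in nonuniform `FPT`, and equal to `FPT` if `q` is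
constant. So the inequality `W[1] ≠ W[2]` is not a consequence of a lower bound for `W[1]` here.)
-/

set_option autoImplicit false

namespace Pool.Agent.Results.MP_5f6b2a_lc.FirstStepStrict

open MeasureTheory Pool.Agent.NPC Pool.Agent.H620R2.Gauge
open Pool.Agent.W900.IE (indep)
open Pool.Agent.TH678.WP (ParaAny)
open Pool.Agent.TH678.HW (InW1 InW2 Tail)

/-- The distribution of the random oracle: the strings `x` are in the oracle with probability
`q |x|`, independently. -/
noncomputable def rand (q : ℕ → unitInterval) : Measure Oracle := indep (fun x => q x.length)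

/-- The probability of the less probable value. -/
noncomputable def minor (q : ℕ → unitInterval) (n : ℕ) : ℝ := min (q n : ℝ) (1 - q n)

/-- The expected number of the strings of length `n` for which the random oracle has the less
probable value. -/
noncomputable def rare (q : ℕ → unitInterval) (n : ℕ) : ℝ := 2 ^ n * minor q n

open Classical in
/-- The same for the lengths with `minor q n ≤ 2 ^ (-δ n)`, and `0` for the other lengths. -/
noncomputable def rareAt (q : ℕ → unitInterval) (δ : ℝ) (n : ℕ) : ℝ :=
  if minor q n ≤ 2 ^ (-(δ * n)) then rare q n else 0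

/-- The disjoint union of the oracles `Q` and `A`. -/
def join (Q A : Oracle) : Oracle
  | [] => false
  | false :: z => Q z
  | true :: z => A z

/-- The nonuniform version of `W[1]` relative to `A`: as `InW1`, but the functions `π` and `h` of the
parameter are arbitrary. -/
def InW1Any (A : Oracle) (P : Set (List Bool × ℕ)) : Prop :=
  ∃ (π : ℕ → List Bool) (h : ℕ → ℕ) (R : List Bool → List Bool) (M : Alg),
    IsFP A R ∧ ∀ x k, (x, k) ∈ P ↔
      ∃ w : List Bool, w.length ≤ h k * (Nat.log 2 x.length + 1) ∧
        Tail M A (h k * (Nat.log 2 x.length + 1)) (h k) (pairBits w (R (pairBits (π k) x)))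

theorem join_eq : TH680.OD.join = join := by
  funext Q A x
  rcases x with _ | ⟨b, z⟩
  · rfl
  · cases b <;> rfl

/-- The problems in `W[1]` are in its nonuniform version. -/
theorem InW1.any {A : Oracle} {P : Set (List Bool × ℕ)} (h : InW1 A P) : InW1Any A P := by
  obtain ⟨π, h, R, M, _, _, hR, hP⟩ := h
  exact ⟨π, h, R, M, hR, hP⟩

theorem minor_const {q : ℕ → unitInterval} {c : unitInterval} (hq : ∀ n, q n = c) (n : ℕ) :
    minor q n = min (c : ℝ) (1 - c) := by
  unfold minor
  rw [hq]

/-- The conditions are satisfied by the constants in the open interval. -/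
theorem summable_const {q : ℕ → unitInterval} {c : unitInterval} (hc : 0 < (c : ℝ))
    (hc' : (c : ℝ) < 1) (hq : ∀ n, q n = c) (δ : ℝ) (hδ : 0 < δ) : Summable (rareAt q δ) := by
  classical
  have hm : 0 < min (c : ℝ) (1 - c) := lt_min hc (by linarith)
  have h1 : Filter.Tendsto (fun n : ℕ => ((2 : ℝ) ^ (-δ)) ^ n) Filter.atTop (nhds 0) := by
    refine tendsto_pow_atTop_nhds_zero_of_lt_one (by positivity) ?_
    exact Real.rpow_lt_one_of_one_lt_of_neg (by norm_num) (by linarith)
  obtain ⟨n₀, hn₀⟩ := Filter.eventually_atTop.1 (h1.eventually (gt_mem_nhds hm))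
  refine summable_of_ne_finset_zero (s := Finset.range n₀) fun n hn => ?_
  rw [Finset.mem_range, not_lt] at hn
  unfold rareAt
  rw [if_neg]
  rw [minor_const hq, not_le]
  have h2 := hn₀ n hn
  rwa [← Real.rpow_natCast, ← Real.rpow_mul (by norm_num), neg_mul] at h2

theorem not_summable_const {q : ℕ → unitInterval} {c : unitInterval} (hc : 0 < (c : ℝ))
    (hc' : (c : ℝ) < 1) (hq : ∀ n, q n = c) : ¬ Summable (rare q) := by
  intro hs
  have hm : 0 < min (c : ℝ) (1 - c) := lt_min hc (by linarith)
  obtain ⟨n, hn⟩ := (hs.tendsto_atTop_zero.eventually (gt_mem_nhds hm)).exists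
  unfold rare at hn
  rw [minor_const hq] at hn
  have h2 : (1 : ℝ) ≤ 2 ^ n := one_le_pow₀ (by norm_num)
  nlinarith

/-- **`W[1] ≠ W[2]` relative to random oracles, together with any oracle.** -/
theorem result :
    (∀ q : ℕ → unitInterval, (∀ δ : ℝ, 0 < δ → Summable (rareAt q δ)) → ¬ Summable (rare q) →
      ∀ Q : Oracle, ∀ᵐ A ∂(rand q), (∀ P, InW1 (join Q A) P → InW2 (join Q A) P) ∧
        ∃ P, InW2 (join Q A) P ∧ ¬ InW1Any (join Q A) P ∧ ¬ ParaAny (IsNP (join Q A)) Pᶜ) ∧
    (∀ c : unitInterval, 0 < (c : ℝ) → (c : ℝ) < 1 →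
      ∀ Q : Oracle, ∀ᵐ A ∂(rand fun _ => c), (∀ P, InW1 (join Q A) P → InW2 (join Q A) P) ∧
        ∃ P, InW2 (join Q A) P ∧ ¬ InW1Any (join Q A) P ∧ ¬ ParaAny (IsNP (join Q A)) Pᶜ) := by
  have hmain : ∀ q : ℕ → unitInterval, (∀ δ : ℝ, 0 < δ → Summable (rareAt q δ)) →
      ¬ Summable (rare q) → ∀ Q : Oracle, ∀ᵐ A ∂(rand q),
        (∀ P, InW1 (join Q A) P → InW2 (join Q A) P) ∧
        ∃ P, InW2 (join Q A) P ∧ ¬ InW1Any (join Q A) P ∧ ¬ ParaAny (IsNP (join Q A)) Pᶜ := by
    intro q h1 h2 Q
    rw [← join_eq]
    filter_upwards [TH683.W1D.strict h1 h2 Q] with A hA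
    refine ⟨fun P => TH683.W1D.w1_w2, ?_⟩
    obtain ⟨P, h3, h4, h5⟩ := hA
    exact ⟨P, h3, fun ⟨π, h, R, M, hR, hP⟩ => h5 π h R M hR hP, h4⟩
  exact ⟨hmain, fun c hc hc' => hmain _ (summable_const hc hc' fun _ => rfl)
    (not_summable_const hc hc' fun _ => rfl)⟩

end Pool.Agent.Results.MP_5f6b2a_lc.FirstStepStrict
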