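import Pool.Agent.TH733.RT.Use
import Pool.Agent.TH733.RG.WP
import Pool.Agent.TH678.WP.Final

/-!
# Common translates of independent random oracles: `FPT` and `W[P]`

If the `W`-hierarchy is strict then `FPT ≠ W[P]`. `xor2 A B` is the symmetric difference of the
oracles `A` and `B`, the translate of `A` by `B`.

* For every sequence `B 0, B 1, ...` of oracles there is one oracle `A` such that `W[P] = FPT`
  relative to every translate of `A` by a `B i`, so that the `W`-hierarchy collapses.
* Let the `B i` be independent random oracles. Almost surely, for every set `I` of numbers there is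
  one oracle `A` such that, relative to the translate by `B i`, for all `i` in `I`, `W[P] = FPT`,
  while for all `i` outside `I`, `W[P]` is not contained in para-coNP with advice.

So the set of the `i` with `W[P] = FPT` relative to the translate by `B i` can be prescribed.

Proof. `A` codes the computations relative to its translates by the `B i`, `i ∈ I`, masked by
`B i`; on the strings of length at most `n` it depends on `I` only below `log n`; for a fixed `I` the
translate by an independent random oracle is random; and the oracles with `W[P]` in para-coNP form a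
null set for slowly growing gauges (`TH678/WP`).
-/

set_option autoImplicit false

namespace Pool.Agent.Results.MP_5f6b2a_lc.IndependentTranslates

open Pool.Agent.NPC Pool.Agent.H620R2.Gauge Pool.Agent.TH678.WP
open Pool.Agent.TH733.RT Pool.Agent.TH733.RG MeasureTheory

theorem nullS : Null slowG {A : Oracle | InCoPN A (hitW A)} :=
  nullW (fun _ hε => (slow_p hε).frequently) _ fun _ hA => hA

theorem wp_iff {A : Oracle} (h : ∀ L, IsPSPACE A L → Reduces L {x | A x = true})
    (Q : Set (List Bool × ℕ)) : InWP A Q ↔ InFPT A Q :=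
  ⟨fun hQ => wp_fpt_of (fun L hL => isP_of_reduces (h L hL.isPSPACE)) hQ, fpt_wp⟩

theorem result :
    (∀ B : ℕ → Oracle, ∃ A : Oracle, ∀ i Q, InWP (xor2 A (B i)) Q ↔ InFPT (xor2 A (B i)) Q) ∧
    ∀ᵐ B ∂randomSeq, ∀ I : Set ℕ, ∃ A : Oracle,
      (∀ i ∈ I, ∀ Q, InWP (xor2 A (B i)) Q ↔ InFPT (xor2 A (B i)) Q) ∧
      ∀ i ∉ I, ∃ Q, InWP (xor2 A (B i)) Q ∧ ¬ InCoPN (xor2 A (B i)) Q := by
  obtain ⟨h1, h2⟩ := use_p nullS
  refine ⟨fun B => ?_, ?_⟩
  · obtain ⟨A, hA⟩ := h1 B
    exact ⟨A, fun i Q => wp_iff (hA i) Q⟩
  · filter_upwards [h2] with B hB I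
    obtain ⟨A, h3, h4⟩ := hB I
    exact ⟨A, fun i hi Q => wp_iff (h3 i hi) Q, fun i hi => ⟨_, hitW_wp _, h4 i hi⟩⟩

end Pool.Agent.Results.MP_5f6b2a_lc.IndependentTranslates
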