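import Pool.Agent.TH678.WP.Final
import Pool.Agent.TH678.WP.Change

/-!
# The oracles relative to which the W-hierarchy collapses to `FPT`: size and distance

Relative to an oracle `A`, the class `FPT` is polynomial time after a precomputation on the
parameter, and `W[P]` is nondeterministic `f k * poly |x|` time with at most `h k * log |x|` guessed
bits.

* *Size.* The set of all oracles with `FPT = W[P]` (hence with a trivial W-hierarchy) is a null set
  for the gauge `f` if and only if for every `ε > 0` there are infinitely many `N` with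
  `f N ≤ 2 ^ ((log N) ^ ε)`. The same holds for the subset where in addition `NP` is not in
  `coNP/poly`, for the superset where `W[P]` is in `para-coNP` with advice, and for all sets in
  between. For all relativized classes `C`, `D` with `FPT ⊆ C` and `D ⊆ W[P]`, for instance for the
  classes `W[t]` and `W[t + 1]`, the set of the oracles with `D ⊆ C` and `P ≠ NP` is not a null set
  for any larger gauge.
* *Distance.* An adversary who knows the random oracle `O` changes, for all large `n`, at most `g n`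
  of the strings of length at most `n`; the result is the oracle `A` (`Close g O A`). If for every
  `ε > 0` there are infinitely many `n` with `g n ≤ 2 ^ (n ^ ε)` then, for almost every `O`, relative
  to all these `A`, the class `W[P]` is not contained in `para-coNP` with advice; in particular it is
  not `FPT`. Otherwise every oracle `O` can be changed such that `FPT = W[P]` relative to `A`; and
  almost every oracle `O` can be changed such that moreover `NP` is not contained in `coNP/poly`.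
-/

set_option autoImplicit false

namespace Pool.Agent.Results.MP_5f6b2a_lc.SizeAndDistance

open Pool.Agent.NPC Pool.Agent.H620R2.Gauge Pool.Agent.TH678.WP Filter MeasureTheory
open Pool.Agent.W900.CH (Close)
open Pool.Agent.H628R3.RO (randomOracle)

theorem result :
    (∀ f : ℕ → ℝ,
      (∀ O : Set Oracle,
        (∀ A : Oracle, (∀ Q, InWP A Q ↔ InFPT A Q) →
          (∃ L, IsNP A L ∧ ¬ WithAdvice (IsNP A) Lᶜ) → A ∈ O) →
        (∀ A ∈ O, ∀ Q, InWP A Q → InCoPN A Q) →
        (Null f O ↔ ∀ ε : ℝ, 0 < ε → ∃ᶠ N : ℕ in atTop, f N ≤ 2 ^ (Real.logb 2 N) ^ ε)) ∧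
      (Null f {A : Oracle | ∀ Q, InWP A Q ↔ InFPT A Q} ↔
        ∀ ε : ℝ, 0 < ε → ∃ᶠ N : ℕ in atTop, f N ≤ 2 ^ (Real.logb 2 N) ^ ε) ∧
      (Null f {A : Oracle | (∀ Q, InWP A Q ↔ InFPT A Q) ∧ ∃ L, IsNP A L ∧ ¬ IsP A L} ↔
        ∀ ε : ℝ, 0 < ε → ∃ᶠ N : ℕ in atTop, f N ≤ 2 ^ (Real.logb 2 N) ^ ε) ∧
      (∀ C D : Oracle → Set (List Bool × ℕ) → Prop,
        (∀ A Q, InFPT A Q → C A Q) → (∀ A Q, D A Q → InWP A Q) →
        Null f {A : Oracle | (∀ Q, D A Q → C A Q) ∧ ∃ L, IsNP A L ∧ ¬ IsP A L} →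
        ∀ ε : ℝ, 0 < ε → ∃ᶠ N : ℕ in atTop, f N ≤ 2 ^ (Real.logb 2 N) ^ ε)) ∧
    (∀ g : ℕ → ℝ,
      ((∀ ε : ℝ, 0 < ε → ∃ᶠ n : ℕ in atTop, g n ≤ 2 ^ (n : ℝ) ^ ε) →
        ∀ᵐ O ∂randomOracle, ∀ A, Close g O A → ∃ Q, InWP A Q ∧ ¬ InCoPN A Q) ∧
      ((¬ ∀ ε : ℝ, 0 < ε → ∃ᶠ n : ℕ in atTop, g n ≤ 2 ^ (n : ℝ) ^ ε) →
        (∀ O : Oracle, ∃ A, Close g O A ∧ ∀ Q, InWP A Q ↔ InFPT A Q) ∧
        ∀ᵐ O ∂randomOracle, ∃ A, Close g O A ∧ (∀ Q, InWP A Q ↔ InFPT A Q) ∧
          ∃ L, IsNP A L ∧ ¬ WithAdvice (IsNP A) Lᶜ)) :=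
  ⟨fun f => main f, fun g => change g⟩

end Pool.Agent.Results.MP_5f6b2a_lc.SizeAndDistance
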